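import Pool.Agent.SYB.Seg

/-! # Boundary segments are dense in the boundary of a local maximiser of the Sylvester functional

`vol`, `V`, `G`, `Sylv`, `IsBody`, `phi` are defined in `Pool.Agent.SYL.Defs`, `tau` in
`Pool.Agent.SYB.Defs`. -/

namespace Pool.Agent.Results.MP_a8433b_co.BoundarySegments

open Pool.Agent.SYL Pool.Agent.SYB

/-- Let `d ≥ 2` and let `D` be a convex body of `R^d` with `Sylv K ≤ Sylv D` for all convex bodies
`K` of nearly the same volume which contain `D` or are contained in `D` (for instance a global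
maximiser). Then arbitrarily close to every boundary point `x` of `D` there is a boundary point `y`
that is an end of a nondegenerate segment `[y, z]` contained in the boundary; if `x` is an extreme
point, then they can be chosen with `phi D z ≤ tau d D < phi D y`. -/
theorem result (d : ℕ) (hd : 2 ≤ d) (D : Set (Fin d → ℝ)) (hD : IsBody D) (ε : ℝ) (hε : 0 < ε)
    (hmax : ∀ K : Set (Fin d → ℝ), IsBody K → (K ⊆ D ∨ D ⊆ K) → |vol K - vol D| < ε →
      Sylv d K ≤ Sylv d D)
    (x : Fin d → ℝ) (hx : x ∈ frontier D) (r : ℝ) (hr : 0 < r) :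
    ∃ y ∈ frontier D, ∃ z ∈ frontier D, dist x y < r ∧ y ≠ z ∧ segment ℝ y z ⊆ frontier D ∧
      (x ∈ Set.extremePoints ℝ D → phi D z ≤ tau d D ∧ tau d D < phi D y) :=
  main hd ⟨hD, ε, hε, hmax⟩ hx hr

end Pool.Agent.Results.MP_a8433b_co.BoundarySegments
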